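import Pool.Agent.Q229.LC.Red
import Pool.Agent.NPC.Classes

/-!
# The locating-dominating coalition number is NP-hard, even for ten parts

The reduction is from monotone not-all-equal satisfiability.  A set `D` of vertices of the graph is
locating-dominating if and only if it meets certain pairs of vertices, two cliques with five vertices
and, for each clause, four sets consisting of the (at most three) vertices of the variables of the
clause and of one vertex of each of two pairs.  All these sets have at most five elements, and in a
coalition graph the parts meeting such a set are a vertex cover.  So if there are at least ten parts,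
then there are two parts `A`, `B` which contain all the pairs, one vertex of the pair each, and all
these sets, except the two cliques, are contained in `A ∪ B` and meet both `A` and `B`; thus
membership in `A` of the vertices of the variables is a not-all-equal assignment.  Conversely, a
not-all-equal assignment gives such a partition with ten parts; eight of the parts are single
vertices of the two cliques.
-/

set_option autoImplicit false

namespace Pool.Agent.Results.MP_722fe9_lc.LdcNPHard

open Pool.Agent.NPC Pool.Agent.H622R2 Q229.LC

theorem hard_k : HardI (LDCk 10) := by
  refine (hard.trans (Pr' := fun M => (matGraph M).Connected) (Q := LDCk 10) (f := fun M => M)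
    Poly.id (fun _ h => h) ?_).toHardI
  intro M hM
  exact ⟨fun h => ⟨hM, h⟩, fun h => h.2⟩

theorem hard_ldc : HardI LDC := by
  refine (hard.trans (Pr' := fun I => (matGraph I.1).Connected) (Q := LDC) (f := fun M => (M, 10))
    (Poly.pair Poly.id (Pool.Agent.NPC.Poly.const 10)) (fun _ h => h) ?_).toHardI
  intro M hM
  exact ⟨fun h => ⟨hM, h⟩, fun h => h.2⟩

/-- **Deciding whether a connected graph `G` has `C_L(G) ≥ 10` is NP-hard**: every language in `NP`
has a polynomial-time many-one reduction to this problem whose values are connected graphs.  So the
problem LDC with `k = 10` fixed, and the problem LDC with `k` part of the input, are NP-hard, and a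
polynomial-time algorithm for one of them gives `NP ⊆ P`. -/
theorem result :
    (∀ L : Set (List Bool), InNP L → ∃ f : List Bool → List (List Bool),
      PolyTime (fun x => bits (f x)) ∧ (∀ x, (matGraph (f x)).Connected) ∧
      ∀ x, x ∈ L ↔ 10 ≤ CL (matGraph (f x))) ∧
    NPHardP (LDCk 10) ∧ NPHardP LDC ∧
    (InPP (LDCk 10) ∨ InPP LDC → ∀ L : Set (List Bool), InNP L → InP L) := by
  refine ⟨fun L hL => ?_, hard_k.toNPHardP, hard_ldc.toNPHardP, ?_⟩
  · obtain ⟨f, hf, hpr, h⟩ := hard L hL
    exact ⟨f, PC.toPolyTime hf, hpr, h⟩
  · rintro (h | h)
    · exact NPHard.collapse hard_k.toNPHardP h
    · exact NPHard.collapse hard_ldc.toNPHardP h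

end Pool.Agent.Results.MP_722fe9_lc.LdcNPHard
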